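import Pool.Agent.Y331.EP.Core
import Pool.Agent.H721R2.AnosovDef

/-!
# Semiconjugacies that are injective on periodic points
-/

set_option autoImplicit false
set_option linter.unusedSectionVars false

open Filter Topology Set Metric

namespace Pool.Agent.V5helper18.Dy

open Pool.Agent.Y331.EP

variable {X Y : Type*} [MetricSpace X] [MetricSpace Y]

/-- topological transitivity -/
def TT {X : Type*} [TopologicalSpace X] (f : X → X) : Prop :=
  ∀ U V : Set X, IsOpen U → U.Nonempty → IsOpen V → V.Nonempty →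
    ∃ n : ℕ, (f^[n] '' U ∩ V).Nonempty

/-- `δ`-chains of any length -/
def Rch (f : X → X) (δ : ℝ) (x y : X) : Prop := ∃ n, ∃ q : ℕ → X, Pth f δ n q ∧ q 0 = x ∧ q n = y

theorem Rch.trans {f : X → X} {δ : ℝ} {x y z : X} (h1 : Rch f δ x y) (h2 : Rch f δ y z) :
    Rch f δ x z := by
  obtain ⟨n1, q1, p1, a1, b1⟩ := h1
  obtain ⟨n2, q2, p2, a2, b2⟩ := h2
  have e : q1 n1 = q2 0 := b1.trans a2.symm
  refine ⟨n1 + n2, Y331.EP.cat n1 q1 q2, p1.cat p2 e, ?_, ?_⟩
  · rw [cat_le _ _ (Nat.zero_le _), a1]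
  · rw [cat_ge e, b2]

theorem Rch.orbit (f : X → X) {δ : ℝ} (hδ : 0 ≤ δ) (x : X) (n : ℕ) : Rch f δ x (f^[n] x) :=
  ⟨n, fun k => f^[k] x, pth_orbit f hδ n x, rfl, rfl⟩

theorem Rch.step {f : X → X} {δ : ℝ} {x y : X} (h : dist (f x) y ≤ δ) : Rch f δ x y := by
  refine ⟨1, fun k => if k = 0 then x else y, ?_, by simp, by simp⟩
  intro k hk
  have : k = 0 := by omega
  subst this
  simpa using h

/-- shadowing of finite paths -/
theorem shad_path {f : X ≃ₜ X} (hS : Shad f) {ε : ℝ} (hε : 0 < ε) : ∃ δ > 0, ∀ n : ℕ,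
    ∀ q : ℕ → X, Pth f δ n q → ∃ p, ∀ k ≤ n, dist (q k) (f^[k] p) ≤ ε := by
  obtain ⟨δ, hδ, hsh⟩ := hS ε hε
  refine ⟨δ, hδ, fun n q hq => ?_⟩
  set y : ℤ → X := fun m => if m ≤ 0 then (f ^ m) (q 0) else
    if m ≤ n then q m.toNat else (f ^ (m - n)) (q n) with hy
  obtain ⟨w, hw, hwd⟩ := hsh y fun m => by
    by_cases h1 : m < 0
    · have e1 : y m = (f ^ m) (q 0) := if_pos h1.le
      have e2 : y (m + 1) = (f ^ (m + 1)) (q 0) := if_pos (by omega)
      rw [e1, e2, zp_succ, dist_self]
      exact hδ.le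
    · by_cases h2 : m < n
      · have e1 : y m = q m.toNat := by
          by_cases h0 : m = 0
          · subst h0
            simp [hy]
          · simp only [hy]
            rw [if_neg (by omega), if_pos (by omega)]
        have e2 : y (m + 1) = q (m.toNat + 1) := by
          simp only [hy]
          rw [if_neg (by omega), if_pos (by omega)]
          congr 1
          omega
        rw [e1, e2]
        exact hq _ (by omega)
      · have e1 : y m = (f ^ (m - n)) (q n) := by
          by_cases h0 : m = n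
          · subst h0
            simp only [hy, sub_self, zpow_zero]
            by_cases h3 : (n : ℤ) ≤ 0
            · have : n = 0 := by omega
              subst this
              simp
            · rw [if_neg h3, if_pos le_rfl]
              simp
          · simp only [hy]
            rw [if_neg (by omega), if_neg (by omega)]
        have e2 : y (m + 1) = (f ^ (m + 1 - n)) (q n) := by
          simp only [hy]
          rw [if_neg (by omega), if_neg (by omega)]
        have e3 : m + 1 - (n : ℤ) = (m - n) + 1 := by ring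
        rw [e1, e2, e3, zp_succ, dist_self]
        exact hδ.le
  refine ⟨w 0, fun k hk => ?_⟩
  have h1 := hwd k
  have h2 := orb_nat hw 0 k
  rw [zero_add] at h2
  rw [h2] at h1
  have h3 : y k = q k := by
    by_cases h0 : k = 0
    · subst h0
      simp [hy]
    · simp only [hy]
      rw [if_neg (by omega), if_pos (by omega)]
      simp
  rwa [h3] at h1

/-- chain transitivity and shadowing give transitivity -/
theorem tt_of_rch {f : X ≃ₜ X} (hS : Shad f) (h : ∀ δ > 0, ∀ x y, Rch f δ x y) : TT f := by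
  rintro U V hU ⟨x, hx⟩ hV ⟨y, hy⟩
  obtain ⟨r1, hr1, h1⟩ := Metric.isOpen_iff.1 hU x hx
  obtain ⟨r2, hr2, h2⟩ := Metric.isOpen_iff.1 hV y hy
  have hm : 0 < min r1 r2 / 2 := half_pos (lt_min hr1 hr2)
  obtain ⟨δ, hδ, hsh⟩ := shad_path hS hm
  obtain ⟨n, q, hq, h0, hn⟩ := h δ hδ x y
  obtain ⟨p, hp⟩ := hsh n q hq
  refine ⟨n, f^[n] p, ⟨p, h1 ?_, rfl⟩, h2 ?_⟩
  · have h3 := hp 0 (Nat.zero_le _)
    rw [h0] at h3
    simp only [Function.iterate_zero, id] at h3
    rw [mem_ball, dist_comm]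
    have := min_le_left r1 r2
    linarith
  · have h3 := hp n le_rfl
    rw [hn] at h3
    rw [mem_ball, dist_comm]
    have := min_le_right r1 r2
    linarith

/-- transitive systems with shadowing have dense periodic points -/
theorem dense_per [CompactSpace X] {f : X ≃ₜ X} {e : ℝ} (hE : Ex f e) (hS : Shad f) (hT : TT f)
    {U : Set X} (hU : IsOpen U) (hne : U.Nonempty) : ∃ p ∈ U, ∃ n ≥ 1, f^[n] p = p := by
  obtain ⟨x, hx⟩ := hne
  obtain ⟨r, hr, h1⟩ := Metric.isOpen_iff.1 hU x hx
  have he := hE.pos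
  set ε := min (r / 4) (e / 2) with hε
  have hε0 : 0 < ε := lt_min (by positivity) (by positivity)
  have hε1 : ε ≤ r / 4 := min_le_left _ _
  have hε2 : ε ≤ e / 2 := min_le_right _ _
  obtain ⟨δ, hδ, hcl⟩ := closing hE hS hε0 (by linarith)
  set ν := min (δ / 2) (r / 4) with hν
  have hν0 : 0 < ν := lt_min (by positivity) (by positivity)
  have hν1 : ν ≤ δ / 2 := min_le_left _ _
  have hν2 : ν ≤ r / 4 := min_le_right _ _
  obtain ⟨n, w', ⟨w, hw, rfl⟩, hw'⟩ := hT (ball x ν) (f ⁻¹' ball x ν) isOpen_ball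
    ⟨x, mem_ball_self hν0⟩ (isOpen_ball.preimage f.continuous) ⟨f.symm x, by
      rw [mem_preimage, f.apply_symm_apply]; exact mem_ball_self hν0⟩
  rw [mem_preimage, ← Function.iterate_succ_apply' f, mem_ball] at hw'
  rw [mem_ball] at hw
  obtain ⟨p, hp, hpd⟩ := hcl (n + 1) (by omega) (fun k => if k = n + 1 then w else f^[k] w) (by
    intro k hk
    show dist (f (if k = n + 1 then w else f^[k] w)) (if k + 1 = n + 1 then w else f^[k + 1] w) ≤ δ
    rw [if_neg (by omega), ← Function.iterate_succ_apply' f]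
    by_cases h2 : k + 1 = n + 1
    · rw [if_pos h2]
      have : k = n := by omega
      subst this
      have h3 := dist_triangle_right (f^[k.succ] w) w x
      linarith
    · rw [if_neg h2, dist_self]; exact hδ.le) (by simp)
  refine ⟨p, h1 ?_, n + 1, by omega, hp⟩
  have h3 := hpd 0 (Nat.zero_le _)
  have h4 : (if (0 : ℕ) = n + 1 then w else f^[0] w) = w := by
    rw [if_neg (by omega)]; rfl
  rw [h4] at h3
  simp only [Function.iterate_zero, id] at h3
  rw [mem_ball]
  have h5 := dist_triangle_left p x w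
  linarith

section main

variable [CompactSpace X] [CompactSpace Y] {f : X ≃ₜ X} {g : Y ≃ₜ Y} {h : X → Y} {ef eg : ℝ}

/-- closed pseudo-orbits with the same image are close -/
theorem pair_close (hF : Ex f ef) (hSf : Shad f) (hG : Ex g eg) (hc : Continuous h)
    (hh : ∀ x, h (f x) = g (h x))
    (hinj : ∀ p p' n, 1 ≤ n → f^[n] p = p → f^[n] p' = p' → h p = h p' → p = p') {ε : ℝ}
    (hε : 0 < ε) : ∃ δ > 0, ∀ n, 1 ≤ n → ∀ q q' : ℕ → X, Pth f δ n q → Pth f δ n q' →
      q n = q 0 → q' n = q' 0 → (∀ k ≤ n, h (q k) = h (q' k)) → ∀ k ≤ n, dist (q k) (q' k) ≤ ε := by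
  have huc : UniformContinuous h := CompactSpace.uniformContinuous_of_continuous hc
  have hef := hF.pos
  have heg := hG.pos
  obtain ⟨θ, hθ, h1⟩ := Metric.uniformContinuous_iff.1 huc (eg / 2) (half_pos heg)
  set ε₁ := min (min (ε / 2) (θ / 2)) (ef / 2) with hε₁
  have h0 : 0 < ε₁ := lt_min (lt_min (half_pos hε) (half_pos hθ)) (half_pos hef)
  have h01 : ε₁ ≤ ε / 2 := (min_le_left _ _).trans (min_le_left _ _)
  have h02 : ε₁ ≤ θ / 2 := (min_le_left _ _).trans (min_le_right _ _)
  have h03 : ε₁ ≤ ef / 2 := min_le_right _ _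
  obtain ⟨δ, hδ, hcl⟩ := closing hF hSf h0 (by linarith)
  refine ⟨δ, hδ, fun n hn q q' hq hq' hqn hqn' hhq k hk => ?_⟩
  obtain ⟨p, hp, hpd⟩ := hcl n hn q hq hqn
  obtain ⟨p', hp', hpd'⟩ := hcl n hn q' hq' hqn'
  have e1 : h p = h p' := by
    refine per_eq hG hn ?_ ?_ ?_
    · rw [← semi_iter hh, hp]
    · rw [← semi_iter hh, hp']
    · intro k hk
      rw [← semi_iter hh, ← semi_iter hh]
      have a1 := h1 (show dist (q k) (f^[k] p) < θ by linarith [hpd k hk.le])
      have a2 := h1 (show dist (q' k) (f^[k] p') < θ by linarith [hpd' k hk.le])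
      rw [← hhq k hk.le] at a2
      have := dist_triangle_left (h (f^[k] p)) (h (f^[k] p')) (h (q k))
      linarith
  have e2 := hinj p p' n hn hp hp' e1
  subst e2
  have a1 := hpd k hk
  have a2 := hpd' k hk
  have := dist_triangle_right (q k) (q' k) (f^[k] p)
  linarith

theorem seg_close (hF : Ex f ef) (hSf : Shad f) (hG : Ex g eg) (hc : Continuous h)
    (hh : ∀ x, h (f x) = g (h x))
    (hinj : ∀ p p' n, 1 ≤ n → f^[n] p = p → f^[n] p' = p' → h p = h p' → p = p') {ε : ℝ}
    (hε : 0 < ε) : ∃ δ > 0, ∀ (z z' : X) (L : ℕ), 1 ≤ L → h z = h z' → dist (f^[L] z) z ≤ δ →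
      dist (f^[L] z') z' ≤ δ → ∀ k < L, dist (f^[k] z) (f^[k] z') ≤ ε := by
  obtain ⟨δ, hδ, h1⟩ := pair_close hF hSf hG hc hh hinj hε
  refine ⟨δ, hδ, fun z z' L hL hz hd hd' k hk => ?_⟩
  have hP : ∀ w : X, dist (f^[L] w) w ≤ δ → Pth f δ L fun k => if k < L then f^[k] w else w := by
    intro w hw k hk
    show dist (f (if k < L then f^[k] w else w)) (if k + 1 < L then f^[k + 1] w else w) ≤ δ
    rw [if_pos hk, ← Function.iterate_succ_apply' f]
    by_cases h2 : k + 1 < L
    · rw [if_pos h2, dist_self]; exact hδ.le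
    · rw [if_neg h2]
      have : k.succ = L := by omega
      rw [this]; exact hw
  have hE : ∀ w : X, (if L < L then f^[L] w else w) = (if 0 < L then f^[0] w else w) := by
    intro w
    rw [if_neg (lt_irrefl _), if_pos (by omega)]
    rfl
  have h2 := h1 L hL _ _ (hP z hd) (hP z' hd') (hE z) (hE z') (by
    intro j _
    by_cases h3 : j < L
    · simp only [if_pos h3]
      rw [semi_iter hh, semi_iter hh, hz]
    · simp only [if_neg h3]
      exact hz) k hk.le
  simpa only [if_pos hk] using h2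

/-- two points with the same image are apart only finitely many times -/
theorem fin_bad (hF : Ex f ef) (hSf : Shad f) (hG : Ex g eg) (hc : Continuous h)
    (hh : ∀ x, h (f x) = g (h x))
    (hinj : ∀ p p' n, 1 ≤ n → f^[n] p = p → f^[n] p' = p' → h p = h p' → p = p') {x x' : X}
    (hx : h x = h x') {ε : ℝ} (hε : 0 < ε) :
    {n : ℤ | ε < dist ((f ^ n) x) ((f ^ n) x')}.Finite := by
  by_contra hinf
  have hinf : {n : ℤ | ε < dist ((f ^ n) x) ((f ^ n) x')}.Infinite := hinf
  obtain ⟨δ, hδ, h1⟩ := seg_close hF hSf hG hc hh hinj hε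
  set a := hinf.natEmbedding with ha
  set u : ℕ → X × X := fun k => ((f ^ (a k : ℤ)) x, (f ^ (a k : ℤ)) x') with hu
  obtain ⟨b, -, φ, hφ, hlim⟩ := isCompact_univ.tendsto_subseq (x := u) fun n => mem_univ _
  have hC := hlim.cauchySeq
  obtain ⟨N, hN⟩ := Metric.cauchySeq_iff.1 hC δ hδ
  have h2 := hN N le_rfl (N + 1) (by omega)
  have hne : (a (φ N) : ℤ) ≠ a (φ (N + 1)) := by
    intro h3
    have h4 : a (φ N) = a (φ (N + 1)) := Subtype.ext h3
    have h5 := hφ.injective (a.injective h4)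
    omega
  have key : ∀ s t : ℤ, s < t → dist ((f ^ s) x) ((f ^ t) x) < δ →
      dist ((f ^ s) x') ((f ^ t) x') < δ → dist ((f ^ s) x) ((f ^ s) x') ≤ ε := by
    intro s t hst d1 d2
    obtain ⟨L, hL⟩ : ∃ L : ℕ, t = s + L := ⟨(t - s).toNat, by omega⟩
    have e1 : ∀ w, (f ^ t) w = f^[L] ((f ^ s) w) := fun w => by
      have := orb_nat (orb_zp f w) s L
      rw [← hL] at this
      exact this
    have hhs : h ((f ^ s) x) = h ((f ^ s) x') := by
      have hz : ∀ w, ∀ n : ℤ, h ((f ^ n) w) = (g ^ n) (h w) := by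
        intro w n
        have ho : Orb g fun m : ℤ => h ((f ^ m) w) := fun m => by
          show h ((f ^ (m + 1)) w) = g (h ((f ^ m) w))
          rw [zp_succ, hh]
        have := orb_eq g ho n
        simpa using this
      rw [hz, hz, hx]
    have := h1 ((f ^ s) x) ((f ^ s) x') L (by omega) hhs (by
      rw [← e1, dist_comm]; exact d1.le) (by
      rw [← e1, dist_comm]; exact d2.le) 0 (by omega)
    simpa using this
  have h3 : dist ((f ^ (a (φ N) : ℤ)) x) ((f ^ (a (φ (N + 1)) : ℤ)) x) < δ :=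
    (le_max_left _ _).trans_lt h2
  have h4 : dist ((f ^ (a (φ N) : ℤ)) x') ((f ^ (a (φ (N + 1)) : ℤ)) x') < δ :=
    (le_max_right _ _).trans_lt h2
  rcases lt_or_gt_of_ne hne with h5 | h5
  · exact absurd (key _ _ h5 h3 h4) (not_le.2 (a (φ N)).2)
  · rw [dist_comm] at h3 h4
    exact absurd (key _ _ h5 h3 h4) (not_le.2 (a (φ (N + 1))).2)

theorem hz_eq (hh : ∀ x, h (f x) = g (h x)) (w : X) (n : ℤ) : h ((f ^ n) w) = (g ^ n) (h w) := by
  have ho : Orb g fun m : ℤ => h ((f ^ m) w) := fun m => by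
    show h ((f ^ (m + 1)) w) = g (h ((f ^ m) w))
    rw [zp_succ, hh]
  have := orb_eq g ho n
  simpa using this

/-- the fibre over the image of a periodic point is a single point -/
theorem fib_per (hF : Ex f ef) (hSf : Shad f) (hG : Ex g eg) (hc : Continuous h)
    (hh : ∀ x, h (f x) = g (h x))
    (hinj : ∀ p p' n, 1 ≤ n → f^[n] p = p → f^[n] p' = p' → h p = h p' → p = p') {p x : X} {n : ℕ}
    (hn : 1 ≤ n) (hp : f^[n] p = p) (hx : h x = h p) : x = p := by
  by_contra hne
  have hd : 0 < dist x p := dist_pos.2 hne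
  obtain ⟨δ, hδ, h1⟩ := seg_close hF hSf hG hc hh hinj (half_pos hd)
  have hfin := fin_bad hF hSf hG hc hh hinj hx (half_pos hδ)
  obtain ⟨b, hb⟩ := (hfin.image Int.natAbs).bddAbove
  have hb' : ∀ m : ℤ, b < m.natAbs → dist ((f ^ m) x) ((f ^ m) p) ≤ δ / 2 := by
    intro m hm
    by_contra hlt
    have : m.natAbs ≤ b := hb ⟨m, not_le.1 hlt, rfl⟩
    omega
  set N : ℕ := n * (b + 1) with hN
  have hNb : b < N := by
    have : b + 1 ≤ n * (b + 1) := Nat.le_mul_of_pos_left _ hn
    omega
  have hpN : f^[N] p = p := by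
    rw [hN, Function.iterate_mul]
    exact Function.iterate_fixed hp _
  have hpz : (f ^ (N : ℤ)) p = p := by rw [zp_nat, hpN]
  have hpz' : (f ^ (-(N : ℤ))) p = p := by
    have h3 : (f ^ (-(N : ℤ))) ((f ^ (N : ℤ)) p) = p := by
      have : (f ^ (-(N : ℤ)) * f ^ (N : ℤ)) p = p := by
        rw [← zpow_add]; simp
      exact this
    rwa [hpz] at h3
  have a1 := hb' N (by simpa using hNb)
  have a2 := hb' (-(N : ℤ)) (by simpa using hNb)
  rw [hpz] at a1
  rw [hpz'] at a2
  have e1 : ∀ k : ℕ, f^[k] ((f ^ (-(N : ℤ))) x) = (f ^ (-(N : ℤ) + k)) x := fun k =>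
    (orb_nat (orb_zp f x) (-(N : ℤ)) k).symm
  have h4 := h1 ((f ^ (-(N : ℤ))) x) p (2 * N) (by omega) (by
    rw [hz_eq hh, hx, ← hz_eq hh, hpz']) (by
    rw [e1]
    have : -(N : ℤ) + ((2 * N : ℕ) : ℤ) = N := by push_cast; ring
    rw [this]
    have := dist_triangle_right ((f ^ (N : ℤ)) x) ((f ^ (-(N : ℤ))) x) p
    linarith) (by
    have : f^[2 * N] p = p := by
      rw [mul_comm, Function.iterate_mul]
      exact Function.iterate_fixed hpN _
    rw [this, dist_self]; exact hδ.le) N (by omega)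
  rw [e1, hpN] at h4
  have e2 : -(N : ℤ) + N = 0 := by ring
  rw [e2, zpow_zero] at h4
  have h5 : dist x p ≤ dist x p / 2 := h4
  linarith

/-- upper semicontinuity of the fibres at a point fibre -/
theorem usc (hc : Continuous h) {p : X} (hfib : ∀ x, h x = h p → x = p) {ε : ℝ} (hε : 0 < ε) :
    ∃ ν > 0, ∀ w, dist (h w) (h p) < ν → dist w p < ε := by
  by_contra hcon
  push Not at hcon
  have h1 : ∀ k : ℕ, ∃ w, dist (h w) (h p) < 1 / ((k : ℝ) + 1) ∧ ε ≤ dist w p := fun k =>
    hcon _ (by positivity)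
  choose w hw1 hw2 using h1
  obtain ⟨b, -, φ, hφ, hlim⟩ := isCompact_univ.tendsto_subseq (x := w) fun n => mem_univ _
  have h2 : Tendsto (fun k => h (w (φ k))) atTop (𝓝 (h b)) := (hc.tendsto b).comp hlim
  have h3 : Tendsto (fun k => dist (h (w k)) (h p)) atTop (𝓝 0) :=
    squeeze_zero (fun _ => dist_nonneg) (fun k => (hw1 k).le) tendsto_one_div_add_atTop_nhds_zero_nat
  have h4 : Tendsto (fun k => h (w (φ k))) atTop (𝓝 (h p)) :=
    tendsto_iff_dist_tendsto_zero.2 (h3.comp hφ.tendsto_atTop)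
  have h5 := hfib b (tendsto_nhds_unique h2 h4)
  have h6 : ε ≤ dist b p := ge_of_tendsto' (hlim.dist tendsto_const_nhds) fun k => hw2 (φ k)
  rw [h5, dist_self] at h6
  linarith

/-- returns -/
theorem returns {f : X ≃ₜ X} (x : X) (σ : ℤ) (hσ : σ ≠ 0) {δ : ℝ} (hδ : 0 < δ) :
    ∃ s t : ℕ, s < t ∧ dist ((f ^ (σ * s)) x) ((f ^ (σ * t)) x) < δ := by
  obtain ⟨b, -, φ, hφ, hlim⟩ := isCompact_univ.tendsto_subseq
    (x := fun n : ℕ => (f ^ (σ * (n : ℤ))) x) fun n => mem_univ _
  obtain ⟨N, hN⟩ := Metric.cauchySeq_iff.1 hlim.cauchySeq δ hδ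
  exact ⟨φ N, φ (N + 1), hφ (by omega), hN N le_rfl (N + 1) (by omega)⟩

/-- every point is chained to a periodic point -/
theorem to_per (hF : Ex f ef) (hSf : Shad f) {δ : ℝ} (hδ : 0 < δ) (x : X) :
    ∃ p n, 1 ≤ n ∧ f^[n] p = p ∧ Rch f δ x p := by
  have huc : UniformContinuous f := CompactSpace.uniformContinuous_of_continuous f.continuous
  have hef := hF.pos
  obtain ⟨θ, hθ, h1⟩ := Metric.uniformContinuous_iff.1 huc δ hδ
  have h0 : 0 < min (θ / 2) (ef / 2) := lt_min (half_pos hθ) (half_pos hef)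
  obtain ⟨δ', hδ', hcl⟩ := closing hF hSf h0 (by linarith [min_le_right (θ / 2) (ef / 2)])
  obtain ⟨s, t, hst, hd⟩ := returns (f := f) x 1 one_ne_zero hδ'
  rw [one_mul, one_mul, zp_nat, zp_nat] at hd
  set L := t - s with hL
  have htL : t = L + s := by omega
  set z := f^[s] x with hz
  have hLz : f^[L] z = f^[t] x := by rw [htL, Function.iterate_add_apply]
  obtain ⟨p, hp, hpd⟩ := hcl L (by omega) (fun k => if k < L then f^[k] z else z) (by
    intro k hk
    show dist (f (if k < L then f^[k] z else z)) (if k + 1 < L then f^[k + 1] z else z) ≤ δ'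
    rw [if_pos hk, ← Function.iterate_succ_apply' f]
    by_cases h2 : k + 1 < L
    · rw [if_pos h2, dist_self]; exact hδ'.le
    · rw [if_neg h2]
      have : k.succ = L := by omega
      rw [this, hLz, dist_comm]; exact hd.le) (by
    show (if L < L then f^[L] z else z) = (if 0 < L then f^[0] z else z)
    rw [if_neg (lt_irrefl _), if_pos (by omega)]; rfl)
  refine ⟨p, L, by omega, hp, ?_⟩
  have h2 := hpd 0 (Nat.zero_le _)
  have h3 : (if 0 < L then f^[0] z else z) = z := by
    rw [if_pos (by omega)]; rfl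
  rw [h3] at h2
  simp only [Function.iterate_zero, id] at h2
  have h4 : dist (f z) (f p) < δ := h1 (by linarith [min_le_left (θ / 2) (ef / 2)])
  have h5 : Rch f δ (f p) p := by
    have := Rch.orbit f hδ.le (f p) (L - 1)
    rw [← Function.iterate_succ_apply] at this
    have h6 : (L - 1).succ = L := by omega
    rwa [h6, hp] at this
  exact ((Rch.orbit f hδ.le x s).trans (Rch.step h4.le)).trans h5

/-- every point is chained from a periodic point -/
theorem from_per (hF : Ex f ef) (hSf : Shad f) {δ : ℝ} (hδ : 0 < δ) (y : X) :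
    ∃ p n, 1 ≤ n ∧ f^[n] p = p ∧ Rch f δ p y := by
  have huc : UniformContinuous f := CompactSpace.uniformContinuous_of_continuous f.continuous
  have hef := hF.pos
  obtain ⟨θ, hθ, h1⟩ := Metric.uniformContinuous_iff.1 huc δ hδ
  have h0 : 0 < min (θ / 2) (ef / 2) := lt_min (half_pos hθ) (half_pos hef)
  obtain ⟨δ', hδ', hcl⟩ := closing hF hSf h0 (by linarith [min_le_right (θ / 2) (ef / 2)])
  obtain ⟨s, t, hst, hd⟩ := returns (f := f) y (-1) (by norm_num) hδ'
  set L := t - s with hL
  set z := (f ^ (-1 * (t : ℤ))) y with hz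
  have e1 : ∀ k : ℕ, f^[k] z = (f ^ (-1 * (t : ℤ) + k)) y := fun k =>
    (orb_nat (orb_zp f y) (-1 * (t : ℤ)) k).symm
  have hLz : f^[L] z = (f ^ (-1 * (s : ℤ))) y := by
    rw [e1]; congr 2; omega
  obtain ⟨p, hp, hpd⟩ := hcl L (by omega) (fun k => if k < L then f^[k] z else z) (by
    intro k hk
    show dist (f (if k < L then f^[k] z else z)) (if k + 1 < L then f^[k + 1] z else z) ≤ δ'
    rw [if_pos hk, ← Function.iterate_succ_apply' f]
    by_cases h2 : k + 1 < L
    · rw [if_pos h2, dist_self]; exact hδ'.le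
    · rw [if_neg h2]
      have : k.succ = L := by omega
      rw [this, hLz]; exact hd.le) (by
    show (if L < L then f^[L] z else z) = (if 0 < L then f^[0] z else z)
    rw [if_neg (lt_irrefl _), if_pos (by omega)]; rfl)
  refine ⟨p, L, by omega, hp, ?_⟩
  have h2 := hpd 0 (Nat.zero_le _)
  have h3 : (if 0 < L then f^[0] z else z) = z := by
    rw [if_pos (by omega)]; rfl
  rw [h3] at h2
  simp only [Function.iterate_zero, id] at h2
  have h4 : dist (f p) (f z) < δ := h1 (by
    rw [dist_comm]; linarith [min_le_left (θ / 2) (ef / 2)])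
  have h5 : Rch f δ (f z) y := by
    have := Rch.orbit f hδ.le (f z) (t - 1)
    rw [← Function.iterate_succ_apply, e1] at this
    have h6 : -1 * (t : ℤ) + ((t - 1).succ : ℕ) = 0 := by omega
    rwa [h6, zpow_zero] at this
  exact (Rch.step h4.le).trans h5

/-- injectivity through chains -/
theorem inj_of_rch (hF : Ex f ef) (hSf : Shad f) (hG : Ex g eg) (hc : Continuous h)
    (hh : ∀ x, h (f x) = g (h x))
    (hinj : ∀ p p' n, 1 ≤ n → f^[n] p = p → f^[n] p' = p' → h p = h p' → p = p') {x x' : X}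
    (hch : ∀ δ > 0, ∀ N : ℕ, Rch f δ ((f ^ (N : ℤ)) x) ((f ^ (-(N : ℤ))) x)) (hx : h x = h x') :
    x = x' := by
  by_contra hne
  have hd : 0 < dist x x' := dist_pos.2 hne
  obtain ⟨δ, hδ, h1⟩ := pair_close hF hSf hG hc hh hinj (half_pos hd)
  have hfin := fin_bad hF hSf hG hc hh hinj hx hδ
  obtain ⟨b, hb⟩ := (hfin.image Int.natAbs).bddAbove
  have hb' : ∀ m : ℤ, b < m.natAbs → dist ((f ^ m) x) ((f ^ m) x') ≤ δ := by
    intro m hm
    by_contra hlt
    have : m.natAbs ≤ b := hb ⟨m, not_le.1 hlt, rfl⟩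
    omega
  set N : ℕ := b + 2 with hN
  set z := (f ^ (-(N : ℤ))) x with hz
  set z' := (f ^ (-(N : ℤ))) x' with hz'
  have e1 : ∀ w, ∀ k : ℕ, f^[k] ((f ^ (-(N : ℤ))) w) = (f ^ (-(N : ℤ) + k)) w := fun w k =>
    (orb_nat (orb_zp f w) (-(N : ℤ)) k).symm
  have hzz : h z = h z' := by rw [hz_eq hh, hz_eq hh, hx]
  have d1 : dist (f z) (f z') ≤ δ := by
    have := hb' (-(N : ℤ) + 1) (by omega)
    rwa [zp_succ, zp_succ] at this
  have d2 : dist (f^[2 * N] z) (f^[2 * N] z') ≤ δ := by
    rw [e1, e1]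
    apply hb'
    omega
  obtain ⟨c, C, hC, hC0, hCc⟩ : Rch f δ (f^[2 * N] z) z := by
    have h5 := hch δ hδ N
    have h6 : f^[2 * N] z = (f ^ (N : ℤ)) x := by
      rw [hz, e1]
      congr 2
      push_cast
      ring
    rw [h6]
    exact h5
  have ecat : (fun k => f^[k] z) (2 * N) = C 0 := hC0.symm
  set q := Y331.EP.cat (2 * N) (fun k => f^[k] z) C with hq
  have hqP : Pth f δ (2 * N + c) q := (pth_orbit f hδ.le (2 * N) z).cat hC ecat
  have hqk : ∀ k ≤ 2 * N, q k = f^[k] z := fun k hk => cat_le _ _ hk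
  have hq0 : q 0 = z := hqk 0 (Nat.zero_le _)
  have hqn : q (2 * N + c) = q 0 := by
    rw [hq0, ← hCc]
    exact cat_ge ecat c
  set q' : ℕ → X := fun k => if 0 < k ∧ k < 2 * N then f^[k] z' else q k with hq'
  have hq'P : Pth f δ (2 * N + c) q' := by
    intro k hk
    show dist (f (if 0 < k ∧ k < 2 * N then f^[k] z' else q k))
      (if 0 < k + 1 ∧ k + 1 < 2 * N then f^[k + 1] z' else q (k + 1)) ≤ δ
    by_cases k0 : k = 0
    · subst k0
      rw [if_neg (by omega), if_pos (by omega), hq0]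
      simpa using d1
    · by_cases k1 : k < 2 * N
      · rw [if_pos (by omega)]
        by_cases k2 : k + 1 < 2 * N
        · rw [if_pos (by omega), Function.iterate_succ_apply', dist_self]
          exact hδ.le
        · rw [if_neg (by omega), hqk (k + 1) (by omega), ← Function.iterate_succ_apply' f]
          have : k + 1 = 2 * N := by omega
          rw [Nat.succ_eq_add_one, this, dist_comm]
          exact d2
      · rw [if_neg (by omega), if_neg (by omega)]
        exact hqP k hk
  have hq'n : q' (2 * N + c) = q' 0 := by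
    show (if 0 < 2 * N + c ∧ 2 * N + c < 2 * N then f^[2 * N + c] z' else q (2 * N + c)) =
      (if 0 < 0 ∧ 0 < 2 * N then f^[0] z' else q 0)
    rw [if_neg (by omega), if_neg (by omega), hqn]
  have h2 := h1 (2 * N + c) (by omega) q q' hqP hq'P hqn hq'n (by
    intro k _
    show h (q k) = h (if 0 < k ∧ k < 2 * N then f^[k] z' else q k)
    by_cases k1 : 0 < k ∧ k < 2 * N
    · rw [if_pos k1, hqk k (by omega), semi_iter hh, semi_iter hh, hzz]
    · rw [if_neg k1]) N (by omega)
  have h3 : q' N = f^[N] z' := by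
    show (if 0 < N ∧ N < 2 * N then f^[N] z' else q N) = _
    rw [if_pos (by omega)]
  rw [h3, hqk N (by omega), hz, hz', e1, e1] at h2
  have e2 : -(N : ℤ) + N = 0 := by ring
  rw [e2, zpow_zero] at h2
  have h5 : dist x x' ≤ dist x x' / 2 := h2
  linarith

/-- the abstract theorem -/
theorem abs_main (hF : Ex f ef) (hSf : Shad f) (hG : Ex g eg) (hSg : Shad g) (hTg : TT g)
    (hc : Continuous h) (hh : ∀ x, h (f x) = g (h x))
    (hinj : ∀ p p' n, 1 ≤ n → f^[n] p = p → f^[n] p' = p' → h p = h p' → p = p')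
    (hper : ∀ q n, 1 ≤ n → g^[n] q = q → ∃ p, f^[n] p = p ∧ h p = q) :
    TT f ∧ Function.Bijective h := by
  -- surjectivity
  have hsurj : Function.Surjective h := by
    have hcl : IsClosed (range h) := (isCompact_range hc).isClosed
    by_contra hns
    have hne : (range h)ᶜ.Nonempty := by
      rw [nonempty_compl]
      intro h1
      exact hns (range_eq_univ.1 h1)
    obtain ⟨q, hq, n, hn, hqn⟩ := dense_per hG hSg hTg hcl.isOpen_compl hne
    obtain ⟨p, -, hp⟩ := hper q n hn hqn
    exact hq ⟨p, hp⟩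
  have huc : UniformContinuous f := CompactSpace.uniformContinuous_of_continuous f.continuous
  -- chains between periodic points
  have hpp : ∀ δ > 0, ∀ p p' n n', 1 ≤ n → 1 ≤ n' → f^[n] p = p → f^[n'] p' = p' →
      Rch f δ p p' := by
    intro δ hδ p p' n n' hn hn' hp hp'
    obtain ⟨θ, hθ, h1⟩ := Metric.uniformContinuous_iff.1 huc (δ / 2) (half_pos hδ)
    obtain ⟨ν, hν, u1⟩ := usc hc (fun x hx => fib_per hF hSf hG hc hh hinj hn hp hx) hθ
    obtain ⟨ν', hν', u2⟩ := usc hc (fun x hx => fib_per hF hSf hG hc hh hinj hn' hp' hx) hθ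
    obtain ⟨m, z', ⟨z, hz, rfl⟩, hz'⟩ := hTg (ball (h p) ν) (ball (h p') ν') isOpen_ball
      ⟨_, mem_ball_self hν⟩ isOpen_ball ⟨_, mem_ball_self hν'⟩
    obtain ⟨w, rfl⟩ := hsurj z
    have a1 : dist w p < θ := u1 w hz
    have a2 : dist (f^[m] w) p' < θ := by
      apply u2
      rw [semi_iter hh]
      exact hz'
    have b1 := h1 a1
    have b2 := h1 a2
    have c1 : Rch f δ p (f p') := by
      refine ⟨m + 1, fun k => if k = 0 then p else if k = m + 1 then f p' else f^[k] w, ?_, by simp,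
        by simp⟩
      intro k hk
      show dist (f (if k = 0 then p else if k = m + 1 then f p' else f^[k] w))
        (if k + 1 = 0 then p else if k + 1 = m + 1 then f p' else f^[k + 1] w) ≤ δ
      rw [if_neg (show ¬ k + 1 = 0 by omega)]
      have d1 : dist (f (if k = 0 then p else if k = m + 1 then f p' else f^[k] w))
          (f (f^[k] w)) ≤ δ / 2 := by
        by_cases hk0 : k = 0
        · subst hk0
          simp only [if_true, Function.iterate_zero, id]
          rw [dist_comm]; exact b1.le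
        · rw [if_neg hk0, if_neg (by omega), dist_self]
          exact (half_pos hδ).le
      have d2 : dist (f (f^[k] w)) (if k + 1 = m + 1 then f p' else f^[k + 1] w) ≤ δ / 2 := by
        by_cases hkm : k + 1 = m + 1
        · rw [if_pos hkm]
          have : k = m := by omega
          subst this
          exact b2.le
        · rw [if_neg hkm, Function.iterate_succ_apply', dist_self]
          exact (half_pos hδ).le
      have := dist_triangle (f (if k = 0 then p else if k = m + 1 then f p' else f^[k] w))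
        (f (f^[k] w)) (if k + 1 = m + 1 then f p' else f^[k + 1] w)
      linarith
    have c2 : Rch f δ (f p') p' := by
      have := Rch.orbit f hδ.le (f p') (n' - 1)
      rw [← Function.iterate_succ_apply] at this
      have h6 : (n' - 1).succ = n' := by omega
      rwa [h6, hp'] at this
    exact c1.trans c2
  have hch : ∀ δ > 0, ∀ x y, Rch f δ x y := by
    intro δ hδ x y
    obtain ⟨p, n, hn, hp, r1⟩ := to_per hF hSf hδ x
    obtain ⟨p', n', hn', hp', r2⟩ := from_per hF hSf hδ y
    exact (r1.trans (hpp δ hδ p p' n n' hn hn' hp hp')).trans r2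
  refine ⟨tt_of_rch hSf hch, ?_, hsurj⟩
  intro x x' hx
  exact inj_of_rch hF hSf hG hc hh hinj (fun δ hδ N => hch δ hδ _ _) hx

end main

end Pool.Agent.V5helper18.Dy
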