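import Pool.Agent.V5helper18.Dy.A

/-!
# Perturbations of topologically Anosov homeomorphisms
-/

set_option autoImplicit false
set_option linter.unusedSectionVars false

open Filter Topology Set Metric

namespace Pool.Agent.V5helper18.Dy

open Pool.Agent.Y331.EP

variable {X Y : Type*} [MetricSpace X] [MetricSpace Y]

/-- the semiconjugacy of a nearby homeomorphism -/
theorem exists_semi [CompactSpace X] {g : X ≃ₜ X} {eg : ℝ} (hG : Ex g eg) (hS : Shad g) {ρ : ℝ}
    (hρ : 0 < ρ) : ∃ ε > 0, ∀ f : X ≃ₜ X, (∀ x, dist (f x) (g x) < ε) →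
      ∃ h : X → X, Continuous h ∧ (∀ x, h (f x) = g (h x)) ∧ ∀ x, dist (h x) x ≤ ρ := by
  have heg := hG.pos
  have h0 : 0 < min ρ (eg / 4) := lt_min hρ (by positivity)
  have h01 : min ρ (eg / 4) ≤ ρ := min_le_left _ _
  have h02 : min ρ (eg / 4) ≤ eg / 4 := min_le_right _ _
  set ρ' := min ρ (eg / 4) with hρ'
  obtain ⟨δ, hδ, hsh⟩ := hS ρ' h0
  refine ⟨δ, hδ, fun f hfg => ?_⟩
  have h1 : ∀ x, ∃ y : ℤ → X, Orb g y ∧ ∀ n : ℤ, dist ((f ^ n) x) (y n) ≤ ρ' := by
    intro x
    apply hsh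
    intro n
    rw [zp_succ, dist_comm]
    exact (hfg _).le
  choose y hy hyd using h1
  refine ⟨fun x => y x 0, ?_, ?_, ?_⟩
  · rw [Metric.continuous_iff']
    intro x ε hε
    obtain ⟨T, hT⟩ := unif_nat hG (half_pos hε)
    have hev : ∀ᶠ x' in 𝓝 x, ∀ k ∈ Finset.range (2 * T + 1),
        dist ((f ^ ((k : ℤ) - T)) x') ((f ^ ((k : ℤ) - T)) x) < eg / 4 := by
      rw [Filter.eventually_all_finset]
      intro k _
      exact Metric.continuousAt_iff'.1 (f ^ ((k : ℤ) - T)).continuous.continuousAt _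
        (by positivity)
    filter_upwards [hev] with x' hx'
    have e1 : ∀ w, ∀ k : ℕ, g^[k] (y w (-(T : ℤ))) = y w (-(T : ℤ) + k) := fun w k =>
      (orb_nat (hy w) _ k).symm
    have h2 := hT (y x' (-(T : ℤ))) (y x (-(T : ℤ))) (by
      intro k hk
      rw [e1, e1]
      have h3 := hx' k (Finset.mem_range.2 (by omega))
      have h4 := hyd x' (-(T : ℤ) + k)
      have h5 := hyd x (-(T : ℤ) + k)
      have e2 : (k : ℤ) - T = -(T : ℤ) + k := by ring
      rw [e2] at h3
      have h6 := dist_triangle4 (y x' (-(T : ℤ) + k)) ((f ^ (-(T : ℤ) + k)) x')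
        ((f ^ (-(T : ℤ) + k)) x) (y x (-(T : ℤ) + k))
      rw [dist_comm] at h4
      linarith)
    rw [e1, e1] at h2
    have e3 : -(T : ℤ) + T = 0 := by ring
    rw [e3] at h2
    linarith
  · intro x
    have h2 := hG.exp (y (f x)) (fun n => y x (1 + n)) (hy _) (orb_shift (hy x) 1) (by
      intro n
      have h3 := hyd (f x) n
      have h4 := hyd x (1 + n)
      have e1 : (f ^ (1 + n)) x = (f ^ n) (f x) := by
        rw [add_comm, zpow_add, zpow_one]; rfl
      rw [e1] at h4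
      show dist (y (f x) n) (y x (1 + n)) ≤ eg
      have := dist_triangle_left (y (f x) n) (y x (1 + n)) ((f ^ n) (f x))
      linarith)
    show y (f x) 0 = g (y x 0)
    rw [h2]
    have := hy x 0
    simpa using this
  · intro x
    have h2 := hyd x 0
    rw [zpow_zero, dist_comm] at h2
    exact h2.trans h01

/-- transitivity of a nearby homeomorphism gives transitivity -/
theorem tt_back [CompactSpace X] {g : X ≃ₜ X} (hS : Shad g) :
    ∃ ε > 0, ∀ f : X ≃ₜ X, (∀ x, dist (f x) (g x) < ε) → TT f → TT g := by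
  by_cases hTg : TT g
  · exact ⟨1, one_pos, fun _ _ _ => hTg⟩
  have h1 : ∃ δ > 0, ∃ x y, ¬ Rch g δ x y := by
    by_contra hcon
    push Not at hcon
    exact hTg (tt_of_rch hS hcon)
  obtain ⟨δ, hδ, x, y, hxy⟩ := h1
  refine ⟨δ / 2, half_pos hδ, fun f hfg hT => ?_⟩
  exfalso
  apply hxy
  have huc : UniformContinuous g := CompactSpace.uniformContinuous_of_continuous g.continuous
  obtain ⟨ν, hν, h2⟩ := Metric.uniformContinuous_iff.1 huc (δ / 2) (half_pos hδ)
  obtain ⟨n, w', ⟨w, hw, rfl⟩, hw'⟩ := hT (ball x ν) (ball (g.symm y) ν) isOpen_ball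
    ⟨x, mem_ball_self hν⟩ isOpen_ball ⟨_, mem_ball_self hν⟩
  have b1 := h2 (show dist w x < ν from hw)
  have b2 := h2 (show dist (f^[n] w) (g.symm y) < ν from hw')
  rw [g.apply_symm_apply] at b2
  refine ⟨n + 1, fun k => if k = 0 then x else if k = n + 1 then y else f^[k] w, ?_, by simp,
    by simp⟩
  intro k hk
  show dist (g (if k = 0 then x else if k = n + 1 then y else f^[k] w))
    (if k + 1 = 0 then x else if k + 1 = n + 1 then y else f^[k + 1] w) ≤ δ
  rw [if_neg (show ¬ k + 1 = 0 by omega)]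
  have d1 : dist (g (if k = 0 then x else if k = n + 1 then y else f^[k] w))
      (g (f^[k] w)) ≤ δ / 2 := by
    by_cases hk0 : k = 0
    · subst hk0
      simp only [if_true, Function.iterate_zero, id]
      rw [dist_comm]; exact b1.le
    · rw [if_neg hk0, if_neg (by omega), dist_self]
      exact (half_pos hδ).le
  have d2 : dist (g (f^[k] w)) (if k + 1 = n + 1 then y else f^[k + 1] w) ≤ δ / 2 := by
    by_cases hkm : k + 1 = n + 1
    · rw [if_pos hkm]
      have : k = n := by omega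
      subst this
      exact b2.le
    · rw [if_neg hkm, Function.iterate_succ_apply', dist_comm]
      exact (hfg _).le
  have := dist_triangle (g (if k = 0 then x else if k = n + 1 then y else f^[k] w))
    (g (f^[k] w)) (if k + 1 = n + 1 then y else f^[k + 1] w)
  linarith

section fib

variable [CompactSpace X] [CompactSpace Y] {f : X ≃ₜ X} {g : Y ≃ₜ Y} {h : X → Y} {ef eg : ℝ}

/-- the fibre through a limit of periodic points is a point -/
theorem fib_rec (hF : Ex f ef) (hSf : Shad f) (hG : Ex g eg) (hc : Continuous h)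
    (hh : ∀ x, h (f x) = g (h x))
    (hinj : ∀ p p' n, 1 ≤ n → f^[n] p = p → f^[n] p' = p' → h p = h p' → p = p') {x x' : X}
    (hx : x ∈ closure {p : X | ∃ n ≥ 1, f^[n] p = p}) (hxx : h x = h x') : x = x' := by
  refine inj_of_rch hF hSf hG hc hh hinj (fun δ hδ N => ?_) hxx
  have c1 := Metric.continuousAt_iff'.1 ((f ^ ((N : ℤ) + 1)).continuous.continuousAt (x := x)) δ hδ
  have c2 := Metric.continuousAt_iff'.1 ((f ^ (-(N : ℤ))).continuous.continuousAt (x := x)) δ hδ
  obtain ⟨p, ⟨hp1, hp2⟩, n, hn, hp⟩ := mem_closure_iff_nhds.1 hx _ (c1.and c2)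
  have hpz : ∀ m : ℤ, f^[n] ((f ^ m) p) = (f ^ m) p := by
    intro m
    have h1 : f^[n] ((f ^ m) p) = (f ^ (m + n)) p := (orb_nat (orb_zp f p) m n).symm
    rw [h1, zpow_add]
    show (f ^ m) ((f ^ (n : ℤ)) p) = _
    rw [zp_nat, hp]
  have r1 : Rch f δ ((f ^ (N : ℤ)) x) ((f ^ ((N : ℤ) + 1)) p) := by
    apply Rch.step
    rw [← zp_succ, dist_comm]
    exact hp1.le
  have r2 : Rch f δ ((f ^ ((N : ℤ) + 1)) p) ((f ^ (-(N : ℤ) - 1)) p) := by
    have h2 := Rch.orbit f hδ.le ((f ^ ((N : ℤ) + 1)) p) ((2 * N + 2) * (n - 1))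
    have h3 : f^[(2 * N + 2) * (n - 1)] ((f ^ ((N : ℤ) + 1)) p) = (f ^ (-(N : ℤ) - 1)) p := by
      have h4 : (f ^ ((N : ℤ) + 1)) p = f^[2 * N + 2] ((f ^ (-(N : ℤ) - 1)) p) := by
        have := orb_nat (orb_zp f p) (-(N : ℤ) - 1) (2 * N + 2)
        rw [← this]
        show _ = (f ^ (-(N : ℤ) - 1 + ((2 * N + 2 : ℕ) : ℤ))) p
        congr 2
        push_cast
        ring
      rw [h4, ← Function.iterate_add_apply]
      have h5 : (2 * N + 2) * (n - 1) + (2 * N + 2) = n * (2 * N + 2) := by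
        obtain ⟨n', rfl⟩ : ∃ n', n = n' + 1 := ⟨n - 1, by omega⟩
        simp only [Nat.add_sub_cancel]
        ring
      rw [h5, Function.iterate_mul]
      exact Function.iterate_fixed (hpz _) _
    rwa [h3] at h2
  have r3 : Rch f δ ((f ^ (-(N : ℤ) - 1)) p) ((f ^ (-(N : ℤ))) x) := by
    apply Rch.step
    rw [← zp_succ, sub_add_cancel]
    exact hp2.le
  exact (r1.trans r2).trans r3

end fib

end Pool.Agent.V5helper18.Dy
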